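import Pool.Agent.U722.FF.Stm2

/-! Project FS, package NOTOR: groups of type FP are torsion-free. -/

set_option autoImplicit false

namespace U187.FSP

open U722.FF Finset

variable {G : Type} [Group G]

/-- the relative trace is onto: `∑ x ^ i π x ^ (-i) = 1` -/
def RelTr (h : G) (p : ℕ) (M : Type) [AddCommGroup M] [Module (MonoidAlgebra ℤ G) M] : Prop :=
  ∃ π : M →+ M, ∀ m : M, ∑ i ∈ range p, MonoidAlgebra.of ℤ G (h ^ i) •
    π (MonoidAlgebra.of ℤ G (h ^ i)⁻¹ • m) = m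

/-- the norm element -/
noncomputable def nrm (h : G) (p : ℕ) : MonoidAlgebra ℤ G := ∑ i ∈ range p, MonoidAlgebra.of ℤ G (h ^ i)

theorem of_mul_nrm {h : G} {p : ℕ} (hp : h ^ p = 1) :
    MonoidAlgebra.of ℤ G h * nrm h p = nrm h p := by
  unfold nrm
  rw [mul_sum]
  have h1 : ∀ i, MonoidAlgebra.of ℤ G h * MonoidAlgebra.of ℤ G (h ^ i) = MonoidAlgebra.of ℤ G (h ^ (i + 1)) := by
    intro i
    rw [← map_mul, pow_succ']
  simp only [h1]
  have h2 := sum_range_succ (fun i => MonoidAlgebra.of ℤ G (h ^ i)) p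
  have h3 := sum_range_succ' (fun i => MonoidAlgebra.of ℤ G (h ^ i)) p
  rw [h2] at h3
  rw [hp, pow_zero] at h3
  exact (add_right_cancel h3).symm

theorem nrm_mul_of {h : G} {p : ℕ} (hp : h ^ p = 1) :
    nrm h p * MonoidAlgebra.of ℤ G h = nrm h p := by
  unfold nrm
  rw [sum_mul]
  have h1 : ∀ i, MonoidAlgebra.of ℤ G (h ^ i) * MonoidAlgebra.of ℤ G h = MonoidAlgebra.of ℤ G (h ^ (i + 1)) := by
    intro i
    rw [← map_mul, pow_succ]
  simp only [h1]
  have h2 := sum_range_succ (fun i => MonoidAlgebra.of ℤ G (h ^ i)) p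
  have h3 := sum_range_succ' (fun i => MonoidAlgebra.of ℤ G (h ^ i)) p
  rw [h2] at h3
  rw [hp, pow_zero] at h3
  exact (add_right_cancel h3).symm

section mods

variable {M : Type} [AddCommGroup M] [Module (MonoidAlgebra ℤ G) M]

theorem fix_pow {h : G} {m : M} (hm : MonoidAlgebra.of ℤ G h • m = m) (i : ℕ) :
    MonoidAlgebra.of ℤ G (h ^ i) • m = m := by
  induction i with
  | zero => rw [pow_zero, map_one, one_smul]
  | succ i ih => rw [pow_succ, map_mul, mul_smul, hm, ih]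

theorem fix_pow_inv {h : G} {m : M} (hm : MonoidAlgebra.of ℤ G h • m = m) (i : ℕ) :
    MonoidAlgebra.of ℤ G (h ^ i)⁻¹ • m = m := by
  have h1 := fix_pow hm i
  calc MonoidAlgebra.of ℤ G (h ^ i)⁻¹ • m
      = MonoidAlgebra.of ℤ G (h ^ i)⁻¹ • (MonoidAlgebra.of ℤ G (h ^ i) • m) := by rw [h1]
    _ = m := by rw [← mul_smul, ← map_mul, inv_mul_cancel, map_one, one_smul]

theorem a0 {h : G} {p : ℕ} (hM : RelTr h p M) (m : M) (hm : MonoidAlgebra.of ℤ G h • m = m) :
    ∃ m' : M, m = nrm h p • m' := by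
  obtain ⟨π, hπ⟩ := hM
  refine ⟨π m, ?_⟩
  conv_lhs => rw [← hπ m]
  unfold nrm
  rw [sum_smul]
  refine sum_congr rfl fun i _ => ?_
  rw [fix_pow_inv hm]

/-- `h ^ i - 1 = (h - 1) (1 + ... + h ^ (i - 1))` -/
theorem pow_sub_one (h : G) (i : ℕ) :
    MonoidAlgebra.of ℤ G (h ^ i) - 1 = (MonoidAlgebra.of ℤ G h - 1) * nrm h i := by
  induction i with
  | zero =>
    rw [pow_zero, map_one, sub_self]
    simp [nrm]
  | succ i ih =>
    have h1 : nrm h (i + 1) = nrm h i + MonoidAlgebra.of ℤ G (h ^ i) := by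
      unfold nrm
      rw [sum_range_succ]
    rw [h1, mul_add, ← ih, sub_mul, one_mul, ← map_mul, pow_succ']
    abel

theorem sum_inv {h : G} {p : ℕ} (hp : h ^ p = 1) (m : M) :
    ∑ i ∈ range p, MonoidAlgebra.of ℤ G (h ^ i)⁻¹ • m = nrm h p • m := by
  unfold nrm
  rw [sum_smul]
  rcases Nat.eq_zero_or_pos p with rfl | hp0
  · simp
  obtain ⟨q, rfl⟩ := Nat.exists_eq_succ_of_ne_zero hp0.ne'
  rw [sum_range_succ', sum_range_succ']
  rw [pow_zero, inv_one]
  congr 1
  rw [← sum_range_reflect]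
  refine sum_congr rfl fun i hi => ?_
  rw [mem_range] at hi
  congr 2
  rw [inv_eq_iff_mul_eq_one, ← pow_add]
  rw [show q - 1 - i + 1 + (i + 1) = q.succ by omega, hp]

theorem a1 {h : G} {p : ℕ} (hp : h ^ p = 1) (hM : RelTr h p M) (m : M) (hm : nrm h p • m = 0) :
    ∃ m' : M, m = MonoidAlgebra.of ℤ G h • m' - m' := by
  obtain ⟨π, hπ⟩ := hM
  have h0 : ∑ i ∈ range p, π (MonoidAlgebra.of ℤ G (h ^ i)⁻¹ • m) = 0 := by
    rw [← map_sum, sum_inv hp, hm, map_zero]
  refine ⟨∑ i ∈ range p, nrm h i • π (MonoidAlgebra.of ℤ G (h ^ i)⁻¹ • m), ?_⟩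
  have h3 : m = ∑ i ∈ range p, MonoidAlgebra.of ℤ G (h ^ i) • π (MonoidAlgebra.of ℤ G (h ^ i)⁻¹ • m) -
      ∑ i ∈ range p, π (MonoidAlgebra.of ℤ G (h ^ i)⁻¹ • m) := by
    rw [h0, sub_zero, hπ m]
  conv_lhs => rw [h3]
  rw [smul_sum, ← sum_sub_distrib, ← sum_sub_distrib]
  refine sum_congr rfl fun i _ => ?_
  have h2 : MonoidAlgebra.of ℤ G (h ^ i) = (MonoidAlgebra.of ℤ G h - 1) * nrm h i + 1 := by
    rw [← pow_sub_one h i, sub_add_cancel]
  rw [h2, add_smul, one_smul, add_sub_cancel_right, mul_smul, sub_smul, one_smul]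

end mods

/-- direct summands -/
theorem RelTr.summand {h : G} {p : ℕ} {M F : Type} [AddCommGroup M] [Module (MonoidAlgebra ℤ G) M]
    [AddCommGroup F] [Module (MonoidAlgebra ℤ G) F] (hF : RelTr h p F)
    (i : M →ₗ[MonoidAlgebra ℤ G] F) (r : F →ₗ[MonoidAlgebra ℤ G] M) (hri : ∀ m, r (i m) = m) :
    RelTr h p M := by
  obtain ⟨π, hπ⟩ := hF
  refine ⟨(r.toAddMonoidHom.comp π).comp i.toAddMonoidHom, fun m => ?_⟩
  have h1 : ∀ k ∈ range p, MonoidAlgebra.of ℤ G (h ^ k) •
      ((r.toAddMonoidHom.comp π).comp i.toAddMonoidHom) (MonoidAlgebra.of ℤ G (h ^ k)⁻¹ • m) =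
      r (MonoidAlgebra.of ℤ G (h ^ k) • π (MonoidAlgebra.of ℤ G (h ^ k)⁻¹ • i m)) := by
    intro k _
    change MonoidAlgebra.of ℤ G (h ^ k) • r (π (i (MonoidAlgebra.of ℤ G (h ^ k)⁻¹ • m))) = _
    rw [i.map_smul, r.map_smul]
  rw [sum_congr rfl h1, ← map_sum, hπ, hri]

/-- direct sums -/
theorem RelTr.finsupp {h : G} {p : ℕ} {M : Type} [AddCommGroup M] [Module (MonoidAlgebra ℤ G) M]
    (hM : RelTr h p M) (ι : Type) : RelTr h p (ι →₀ M) := by
  obtain ⟨π, hπ⟩ := hM
  refine ⟨Finsupp.mapRange.addMonoidHom π, fun m => ?_⟩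
  ext a
  rw [Finsupp.finsetSum_apply]
  conv_rhs => rw [← hπ (m a)]
  refine sum_congr rfl fun i _ => ?_
  rw [Finsupp.smul_apply]
  congr 1

/-- the group ring -/
theorem relTr_ring {h : G} {p : ℕ} (hp : h ^ p = 1) (hp0 : 0 < p)
    (hinj : ∀ i < p, h ^ i = 1 → i = 0) : RelTr h p (MonoidAlgebra ℤ G) := by
  classical
  set rep : G → G := fun g => Quotient.out (Quotient.mk (MulAction.orbitRel (Subgroup.zpowers h) G) g)
    with hrep
  have R1 : ∀ (i : ℕ) (g : G), rep ((h ^ i)⁻¹ * g) = rep g := by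
    intro i g
    refine congrArg Quotient.out (Quotient.sound ?_)
    change (h ^ i)⁻¹ * g ∈ MulAction.orbit (Subgroup.zpowers h) g
    exact ⟨⟨(h ^ i)⁻¹, inv_mem (Subgroup.npow_mem_zpowers h i)⟩, rfl⟩
  have R2 : ∀ g : G, ∃ i < p, (h ^ i)⁻¹ * g = rep g := by
    intro g
    have h1 : rep g ∈ MulAction.orbit (Subgroup.zpowers h) g :=
      Quotient.mk_out (s := MulAction.orbitRel (Subgroup.zpowers h) G) g
    obtain ⟨⟨c, hc⟩, h2⟩ := h1
    obtain ⟨j, rfl⟩ := Subgroup.mem_zpowers_iff.1 hc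
    have h3 : h ^ j * g = rep g := h2
    refine ⟨((-j) % (p : ℤ)).toNat, ?_, ?_⟩
    · have := Int.emod_lt_of_pos (-j) (by exact_mod_cast hp0 : (0 : ℤ) < p)
      have := Int.emod_nonneg (-j) (by exact_mod_cast hp0.ne' : (p : ℤ) ≠ 0)
      omega
    · rw [← h3]
      congr 1
      have h4 : h ^ ((-j) % (p : ℤ)).toNat = h ^ (-j) := by
        rw [zpow_eq_zpow_emod' (-j) hp, ← zpow_natCast, Int.toNat_of_nonneg
          (Int.emod_nonneg (-j) (by exact_mod_cast hp0.ne' : (p : ℤ) ≠ 0))]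
      rw [h4, zpow_neg, inv_inv]
  have R3 : ∀ (i j : ℕ), i < p → j < p → h ^ i = h ^ j → i = j := by
    have aux : ∀ (i j : ℕ), i ≤ j → j < p → h ^ i = h ^ j → i = j := by
      intro i j hij hj e
      have h1 : h ^ (j - i) = 1 := by
        have e2 : h ^ j = h ^ (j - i) * h ^ i := by rw [← pow_add, Nat.sub_add_cancel hij]
        rw [e2] at e
        exact (mul_eq_right.1 e.symm)
      have := hinj (j - i) (by omega) h1
      omega
    intro i j hi hj e
    rcases le_total i j with hij | hij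
    · exact aux i j hij hj e
    · exact (aux j i hij hi e.symm).symm
  set π : MonoidAlgebra ℤ G →+ MonoidAlgebra ℤ G := (Finsupp.liftAddHom (fun g : G =>
    if g = rep g then MonoidAlgebra.singleAddHom (R := ℤ) g else 0)).comp
      MonoidAlgebra.coeffAddEquiv.toAddMonoidHom with hπ
  have hs : ∀ (g : G) (z : ℤ), π (MonoidAlgebra.single g z) =
      if g = rep g then MonoidAlgebra.single g z else 0 := by
    intro g z
    change (Finsupp.liftAddHom (fun g : G =>
      if g = rep g then MonoidAlgebra.singleAddHom (R := ℤ) g else 0)) (Finsupp.single g z) = _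
    rw [Finsupp.liftAddHom_apply_single]
    split_ifs <;> rfl
  refine ⟨π, fun m => ?_⟩
  induction m using MonoidAlgebra.induction_linear with
  | zero => simp
  | add a b ha hb =>
    conv_rhs => rw [← ha, ← hb]
    rw [← sum_add_distrib]
    refine sum_congr rfl fun i _ => ?_
    rw [smul_add, map_add, smul_add]
  | single g z =>
    have h1 : ∀ i ∈ range p, MonoidAlgebra.of ℤ G (h ^ i) •
        π (MonoidAlgebra.of ℤ G (h ^ i)⁻¹ • MonoidAlgebra.single g z) =
        if (h ^ i)⁻¹ * g = rep g then MonoidAlgebra.single g z else 0 := by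
      intro i _
      rw [smul_eq_mul, smul_eq_mul, MonoidAlgebra.of_apply, MonoidAlgebra.of_apply,
        MonoidAlgebra.single_mul_single, one_mul, hs, R1]
      split_ifs
      · rw [MonoidAlgebra.single_mul_single, one_mul, mul_inv_cancel_left]
      · rw [mul_zero]
    rw [sum_congr rfl h1]
    obtain ⟨i0, hi0, e0⟩ := R2 g
    rw [sum_eq_single i0]
    · rw [if_pos e0]
    · intro i hi hne
      rw [if_neg]
      intro e
      apply hne
      refine R3 i i0 (mem_range.1 hi) hi0 ?_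
      rw [← e0] at e
      exact inv_injective (mul_right_cancel e)
    · intro hi
      exact absurd (mem_range.2 hi0) hi

theorem relTr_proj {h : G} {p : ℕ} (hR : RelTr h p (MonoidAlgebra ℤ G)) (P : Type) [AddCommGroup P]
    [Module (MonoidAlgebra ℤ G) P] [Module.Projective (MonoidAlgebra ℤ G) P] : RelTr h p P := by
  obtain ⟨s, hs⟩ := Module.projective_def'.1 (inferInstance : Module.Projective (MonoidAlgebra ℤ G) P)
  refine (hR.finsupp P).summand s (Finsupp.linearCombination (MonoidAlgebra ℤ G) id) fun m => ?_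
  exact LinearMap.congr_fun hs m

theorem t_NOTOR : S_NOTOR := by
  intro G _ hG g k hk hgk
  by_contra hg
  obtain ⟨n, P, d, ε, hproj, hfin, hsub, hε, hεs, hε0, hd⟩ := hG
  -- an element of prime order
  have hfo : IsOfFinOrder g := isOfFinOrder_iff_pow_eq_one.2 ⟨k, hk, hgk⟩
  have hord1 : orderOf g ≠ 1 := fun h => hg (orderOf_eq_one_iff.1 h)
  obtain ⟨p, hp, hpd⟩ := Nat.exists_prime_and_dvd hord1
  have hordpos : 0 < orderOf g := hfo.orderOf_pos
  set h : G := g ^ (orderOf g / p) with hh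
  have hoh : orderOf h = p := by
    rw [hh, orderOf_pow_of_dvd (Nat.div_ne_zero_iff_of_dvd hpd |>.2 ⟨hordpos.ne', hp.ne_zero⟩) (Nat.div_dvd_of_dvd hpd)]
    exact Nat.div_div_self hpd hordpos.ne'
  have hhp : h ^ p = 1 := by rw [← hoh]; exact pow_orderOf_eq_one h
  have hinj : ∀ i < p, h ^ i = 1 → i = 0 := by
    intro i hi h1
    by_contra h0
    have := orderOf_le_of_pow_eq_one (Nat.pos_of_ne_zero h0) h1
    omega
  have hR : RelTr h p (MonoidAlgebra ℤ G) := relTr_ring hhp hp.pos hinj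
  have hQ : ∀ i, RelTr h p (P i) := fun i => by
    haveI := hproj i
    exact relTr_proj hR (P i)
  have hx : (MonoidAlgebra.of ℤ G h - 1) * nrm h p = 0 := by
    rw [sub_mul, of_mul_nrm hhp, one_mul, sub_self]
  have hx' : nrm h p * (MonoidAlgebra.of ℤ G h - 1) = 0 := by
    rw [mul_sub, nrm_mul_of hhp, mul_one, sub_self]
  have hNx : ∀ (i : ℕ) (m : P i), nrm h p • (MonoidAlgebra.of ℤ G h • m - m) = 0 := by
    intro i m
    have : MonoidAlgebra.of ℤ G h • m - m = (MonoidAlgebra.of ℤ G h - 1) • m := by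
      rw [sub_smul, one_smul]
    rw [this, ← mul_smul, hx', zero_smul]
  have hxN : ∀ (i : ℕ) (m : P i), MonoidAlgebra.of ℤ G h • (nrm h p • m) = nrm h p • m := by
    intro i m
    rw [← mul_smul, of_mul_nrm hhp]
  -- the property of the images
  have key : ∀ j i : ℕ, n ≤ i + j →
      (∀ m ∈ LinearMap.range (d i), MonoidAlgebra.of ℤ G h • m = m →
        ∃ m' ∈ LinearMap.range (d i), m = nrm h p • m') ∧
      (∀ m ∈ LinearMap.range (d i), nrm h p • m = 0 →
        ∃ m' ∈ LinearMap.range (d i), m = MonoidAlgebra.of ℤ G h • m' - m') := by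
    intro j
    induction j with
    | zero =>
      intro i hi
      have h0 : ∀ m ∈ LinearMap.range (d i), m = 0 := by
        rintro m ⟨y, rfl⟩
        haveI := hsub (i + 1) (by omega)
        rw [Subsingleton.elim y 0, map_zero]
      exact ⟨fun m hm _ => ⟨0, Submodule.zero_mem _, by rw [h0 m hm, smul_zero]⟩,
        fun m hm _ => ⟨0, Submodule.zero_mem _, by rw [h0 m hm, smul_zero, sub_zero]⟩⟩
    | succ j ih =>
      intro i hi
      obtain ⟨i0, i1⟩ := ih (i + 1) (by omega)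
      rw [← hd i] at i0 i1
      constructor
      · rintro m ⟨y, rfl⟩ hm
        have hk : MonoidAlgebra.of ℤ G h • y - y ∈ LinearMap.ker (d i) := by
          rw [LinearMap.mem_ker, map_sub, map_smul, hm, sub_self]
        obtain ⟨k', hk', e⟩ := i1 _ hk (hNx _ y)
        obtain ⟨y1, hy1⟩ := a0 (hQ (i + 1)) (y - k') (by
          rw [smul_sub]
          have : MonoidAlgebra.of ℤ G h • y = y + (MonoidAlgebra.of ℤ G h • k' - k') := by
            rw [← e]; abel
          rw [this]; abel)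
        refine ⟨d i y1, ⟨y1, rfl⟩, ?_⟩
        rw [← map_smul, ← hy1, map_sub, LinearMap.mem_ker.1 hk', sub_zero]
      · rintro m ⟨y, rfl⟩ hm
        have hk : nrm h p • y ∈ LinearMap.ker (d i) := by
          rw [LinearMap.mem_ker, map_smul, hm]
        obtain ⟨k', hk', e⟩ := i0 _ hk (hxN _ y)
        obtain ⟨y1, hy1⟩ := a1 hhp (hQ (i + 1)) (y - k') (by
          rw [smul_sub, e, sub_self])
        refine ⟨d i y1, ⟨y1, rfl⟩, ?_⟩
        rw [← map_smul, ← map_sub, ← hy1, map_sub, LinearMap.mem_ker.1 hk', sub_zero]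
  obtain ⟨-, i1⟩ := key n 0 (by omega)
  obtain ⟨y, hy⟩ := hεs 1
  have hk : MonoidAlgebra.of ℤ G h • y - y ∈ LinearMap.range (d 0) := by
    rw [← hε0, map_sub, hε, sub_self]
  obtain ⟨k', hk', e⟩ := i1 _ hk (hNx _ y)
  obtain ⟨y1, hy1⟩ := a0 (hQ 0) (y - k') (by
    rw [smul_sub]
    have : MonoidAlgebra.of ℤ G h • y = y + (MonoidAlgebra.of ℤ G h • k' - k') := by
      rw [← e]; abel
    rw [this]; abel)
  have h1 : ε (y - k') = 1 := by
    rw [map_sub, hy, (hε0 k').2 hk', sub_zero]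
  have h2 : ε (nrm h p • y1) = p * ε y1 := by
    unfold nrm
    rw [sum_smul, map_sum]
    simp only [hε]
    rw [sum_const, card_range, nsmul_eq_mul]
  rw [hy1, h2] at h1
  have h3 : (p : ℤ) ∣ 1 := ⟨_, h1.symm⟩
  have h4 : p ∣ 1 := by exact_mod_cast h3
  exact hp.one_lt.ne' (Nat.dvd_one.1 h4)

end U187.FSP
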